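import Pool.Agent.K9h22.IC.More
import Pool.Agent.R852.PP.FE
import Pool.Agent.TH192.DT.Strict
import Pool.Agent.W574.CN.Gen
import Pool.Agent.W574.MO.Homog

set_option autoImplicit false
set_option linter.unusedSectionVars false
set_option linter.unusedVariables false

/-! # Cones: reduced forced roots -/

namespace Pool.Agent.K9h22.IC

open MvPolynomial Pool.Agent.W574.SM Pool.Agent.W574.HS Pool.Agent.W574.LM Pool.Agent.W574.RO
  Pool.Agent.Y229 Pool.Agent.Y230.TL Pool.Agent.K9h41.TS Pool.Agent.R852.PP Pool.Agent.TH192.DT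
open Pool.Agent.H628R4.TP (IsLocalBFunction IsBFunction weylS)

variable {n : ℕ} {τ : Type} [Fintype τ] [DecidableEq τ] {κ : τ → Type} [∀ t, Fintype (κ t)]
  [∀ t, DecidableEq (κ t)] (a : τ → ℕ) (h : MvPolynomial (Fin (n + 1)) ℂ)
  (f : (t : τ) → κ t → MvPolynomial (Fin (n + 1)) ℂ)

theorem form_homog (dh : ℕ) (δ : τ → ℕ) (hh : h.IsHomogeneous dh)
    (hf : ∀ t j, (f t j).IsHomogeneous (δ t)) :
    (form a h f).IsHomogeneous (dh + ∑ t, (1 + δ t) * a t) := by
  unfold form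
  refine (hh.rename_isHomogeneous).mul ?_
  unfold powProd
  refine IsHomogeneous.prod _ _ _ fun t _ => ?_
  refine IsHomogeneous.pow (IsHomogeneous.sum _ _ _ fun j _ => ?_) _
  exact (isHomogeneous_X ℂ _).mul ((hf t j).rename_isHomogeneous)

theorem form_ne (hh0 : h ≠ 0) (hf0 : ∀ t, ∃ j, f t j ≠ 0) : form a h f ≠ 0 := by
  unfold form
  refine mul_ne_zero ?_ (powProd_ne a f hf0)
  intro h0
  exact hh0 (rename_injective _ Sum.inr_injective (by rw [h0, map_zero]))

/-- the form vanishes if all the `y` are zero -/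
theorem form_eval (t0 : τ) (ht0 : a t0 ≠ 0) (p : Fin (n + 1) → ℂ) :
    eval (Sum.elim (fun _ => 0) p) (form a h f) = 0 := by
  unfold form powProd
  rw [map_mul, map_prod]
  refine mul_eq_zero_of_right _ (Finset.prod_eq_zero (Finset.mem_univ t0) ?_)
  rw [map_pow]
  have : eval (Sum.elim (fun _ => 0) p) (blockForm f t0) = 0 := by
    unfold blockForm
    rw [map_sum]
    refine Finset.sum_eq_zero fun j _ => ?_
    rw [map_mul, eval_X, Sum.elim_inl, zero_mul]
  rw [this, zero_pow ht0]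

theorem phiA_factor (t0 : τ) (ht0 : a t0 ≠ 0) : ∃ φ : Polynomial ℂ,
    phiA a = (Polynomial.X + 1) * φ := by
  have h1 : (Polynomial.X - Polynomial.C (-1 : ℂ)) ∣ phiA a := by
    rw [Polynomial.dvd_iff_isRoot, Polynomial.IsRoot.def, phiA, Polynomial.eval_prod]
    refine Finset.prod_eq_zero (Finset.mem_univ t0) ?_
    rw [Polynomial.eval_prod]
    refine Finset.prod_eq_zero (i := a t0 - 1) (Finset.mem_range.2 (by omega)) ?_
    rw [Polynomial.eval_add, Polynomial.eval_mul, Polynomial.eval_C, Polynomial.eval_C,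
      Polynomial.eval_X]
    have : a t0 - 1 + 1 = a t0 := by omega
    rw [this]
    ring
  obtain ⟨φ, hφ⟩ := h1
  refine ⟨φ, ?_⟩
  rw [hφ, map_neg, map_one, sub_neg_eq_add]

theorem gen_homog (dh : ℕ) (δ : τ → ℕ) (hh : h.IsHomogeneous dh)
    (hf : ∀ t j, (f t j).IsHomogeneous (δ t)) (J : Ch κ a) :
    (Pool.Agent.R852.PP.gen a h f J).IsHomogeneous (dh + ∑ t, a t * δ t) := by
  have h1 : (prodFam (fun q : Σ t, Fin (a t) => f q.1) J).IsHomogeneous
      (∑ q : Σ t, Fin (a t), δ q.1) := by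
    unfold prodFam
    exact IsHomogeneous.prod _ _ _ fun q _ => hf q.1 (J q)
  have h2 : (∑ q : Σ t, Fin (a t), δ q.1) = ∑ t, a t * δ t := by
    rw [Fintype.sum_sigma]
    refine Finset.sum_congr rfl fun t _ => ?_
    simp
  rw [← h2]
  exact hh.mul h1

/-- **The reduced root `-(n + 1) / d` of a cone.** -/
theorem rf_top (dh : ℕ) (δ : τ → ℕ) (hh : h.IsHomogeneous dh)
    (hf : ∀ t j, (f t j).IsHomogeneous (δ t)) (hh0 : h ≠ 0) (hf0 : ∀ t, ∃ j, f t j ≠ 0)
    (t0 : τ) (ha0 : a t0 ≠ 0) (hd : 0 < dh + ∑ t, a t * δ t) (J : Fin (n + 1) → Ch κ a)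
    (hJ : (Matrix.of fun s t => pderiv s (Pool.Agent.R852.PP.gen a h f (J t))).det ≠ 0) :
    RF (form a h f) 0 (-((n + 1 : ℕ) : ℂ) / ((dh + ∑ t, a t * δ t : ℕ) : ℂ)) := by
  classical
  refine rf_of_localB _ (form_ne a h f hh0 hf0) _ fun b hb => ?_
  have h1 : IsBFunction (form a h f) ((Polynomial.X + 1) * b) :=
    Pool.Agent.W574.MO.global_of_local _ (form_ne a h f hh0 hf0) _
      (form_homog a h f dh δ hh hf) _ hb
  obtain ⟨b', hb', hfe⟩ := functionalEq_strong a h f hh0 hf0 t0 ha0 _ h1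
  obtain ⟨φ, hφ⟩ := phiA_factor a t0 ha0
  have h2 : b = φ * b' := by
    have h3 : (Polynomial.X + 1 : Polynomial ℂ) ≠ 0 := by
      have := Polynomial.X_add_C_ne_zero (1 : ℂ)
      rwa [map_one] at this
    apply mul_left_cancel₀ h3
    rw [hb', hφ, mul_assoc]
  have h4 := Pool.Agent.W574.CN.generic_root (Pool.Agent.R852.PP.gen a h f) _ hd
    (gen_homog a h f dh δ hh hf) b' hfe J hJ
  rw [h2, Polynomial.eval_mul]
  refine mul_eq_zero_of_right _ ?_
  rw [← h4]
  congr 1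
  push_cast
  ring

/-- **Reduced forced roots at the other points of a cone.** -/
theorem rf_cone_point (dh : ℕ) (δ : τ → ℕ) (hh : h.IsHomogeneous dh)
    (hf : ∀ t j, (f t j).IsHomogeneous (δ t)) (hh0 : h ≠ 0) (hf0 : ∀ t, ∃ j, f t j ≠ 0)
    (p : (Σ t, κ t) ⊕ Fin (n + 1) → ℂ) (β : ℂ) (hr : RF (tr p (form a h f)) 0 β) :
    RF (form a h f) 0 β := by
  classical
  have hne := form_ne a h f hh0 hf0
  refine rf_transfer _ hne (tr p (form a h f)) inferInstance (fun h0 => hne ?_) (fun b hb => ?_)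
    β hr
  · exact tr_injective p (by rw [h0, map_zero])
  · exact local_of_global _ _ (isB_tr p _ _ (Pool.Agent.W574.MO.global_of_local _ hne _
      (form_homog a h f dh δ hh hf) _ hb))

end Pool.Agent.K9h22.IC
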