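import Mathlib

set_option autoImplicit false

/-! # Translations -/

namespace Pool.Agent.K9h22.IC

open MvPolynomial

/-- the translated polynomial `g(x + p)` -/
noncomputable def tr {σ : Type} (p : σ → ℂ) : MvPolynomial σ ℂ →ₐ[ℂ] MvPolynomial σ ℂ :=
  aeval (fun i => X i + C (p i))

end Pool.Agent.K9h22.IC
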