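import Pool.Agent.K9h41.TS.Defs
import Pool.Agent.R852.PP.FE
import Pool.Agent.Y229.GL.Chg
import Pool.Agent.K9h22.IC.Tr

set_option autoImplicit false

/-! # Local motivic zeta functions of iterated cones and Thom-Sebastiani sums: the classes

`M` is a commutative ring with a unit `L`. The main example is `M = K₀(Var_ℂ)[1/L]`, the
Grothendieck ring of complex varieties, localized at the class `L` of the affine line. As in
`Pool.Agent.K9h41.TS.Defs`, the local motivic zeta functions at the origin are normalized such that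
the set of the arcs with the origin `0` has the volume `1`. -/

namespace Pool.Agent.K9h22.IC

open MvPolynomial Pool.Agent.W574.MO Pool.Agent.W574.CN Pool.Agent.W574.RO
open Pool.Agent.Y229.GL (IsCoord)
open Pool.Agent.K9h41.TS (MotTS univFam tsFam tsSeries)
open Pool.Agent.R852.PP (form gen)
open Pool.Agent.TH192.DT (Ch)

variable {M : Type} [CommRing M]

/-- The data of a polynomial `G = h(x) ∏_t (∑_j y_{t,j} f_{t,j}(x)) ^ a_t`: forms `h ≠ 0` of degree
`dh` and `f_{t,j}` of degree `δ t` (for every `t` not all zero) in `x = (x_0, ..., x_n)`, at least one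
`t`, exponents `a_t ≥ 1`, such that the degree `d` of `G` in `x` is positive, and `n + 1` of the
generators `h ∏_t ∏_{i < a_t} f_{t, J(t, i)}` of the ideal `h ∏_t (f_{t,j})_j ^ a_t` are algebraically
independent (their Jacobian determinant is not zero). -/
structure ConeData where
  /-- `x = (x_0, ..., x_n)` -/
  n : ℕ
  /-- the number of the factors -/
  m : ℕ
  /-- the numbers of the `f_{t,j}` -/
  r : Fin m → ℕ
  /-- the exponents -/
  a : Fin m → ℕ
  /-- the form `h` -/
  h : MvPolynomial (Fin (n + 1)) ℂ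
  /-- the forms `f_{t,j}` -/
  f : (t : Fin m) → Fin (r t) → MvPolynomial (Fin (n + 1)) ℂ
  /-- the degree of `h` -/
  dh : ℕ
  /-- the degrees of the `f_{t,j}` -/
  δ : Fin m → ℕ
  hm : 0 < m
  ha : ∀ t, 0 < a t
  hh : h.IsHomogeneous dh
  hf : ∀ t j, (f t j).IsHomogeneous (δ t)
  hh0 : h ≠ 0
  hf0 : ∀ t, ∃ j, f t j ≠ 0
  hd : 0 < dh + ∑ t, a t * δ t
  /-- the numbers of the `n + 1` generators -/
  J : Fin (n + 1) → Ch (fun t => Fin (r t)) a
  hJ : (Matrix.of fun s t => pderiv s (gen a h f (J t))).det ≠ 0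

/-- the polynomial `G = h(x) ∏_t (∑_j y_{t,j} f_{t,j}(x)) ^ a_t` -/
noncomputable def ConeData.G (D : ConeData) :
    MvPolynomial ((Σ t, Fin (D.r t)) ⊕ Fin (D.n + 1)) ℂ := form D.a D.h D.f

/-- the degree of `G` in `x` -/
def ConeData.d (D : ConeData) : ℕ := D.dh + ∑ t, D.a t * D.δ t

/-- Two classes of germs of ideals at the origin, given by generators, together with their local
motivic zeta functions, normalized such that the arcs with the origin `0` have the volume `1`:
`MotIC L false A Z` for ideals and `MotIC L true A Z` for principal ideals (hypersurfaces). They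
are the smallest classes with the following properties. -/
inductive MotIC (L : Mˣ) : Bool → Fam → PowerSeries M → Prop
  /-- the germs in the classes `MotTS`, for instance the ideals of `ℂ[x₁, x₂]` and the hypersurfaces
  `h(x₁, x₂) (f₀(x₁, x₂) + ∑ y_j f_j(x₁, x₂)) ^ a = 0` -/
  | base (c : Bool) (A : Fam) (Z : PowerSeries M) (h : MotTS L c A Z) : MotIC L c A Z
  /-- a hypersurface is a principal ideal -/
  | hyp (A : Fam) (Z : PowerSeries M) (h : MotIC L true A Z) : MotIC L false A Z
  /-- the sum of two ideals in disjoint sets of variables: the order is the minimum of the orders,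
  see `sumSeries` -/
  | sum (A B : Fam) (Z W : PowerSeries M) (hA : MotIC L false A Z) (hB : MotIC L false B W) :
      MotIC L false (A.sum B) (sumSeries Z W)
  /-- the product of two ideals in disjoint sets of variables: the orders are added -/
  | mul (A B : Fam) (Z W : PowerSeries M) (hA : MotIC L false A Z) (hB : MotIC L false B W) :
      MotIC L false (A.mul B) (Z * W)
  /-- the hypersurface `∑ y_j f_j(x) = 0` -/
  | univ (A : Fam) (Z : PowerSeries M) (hA : MotIC L false A Z) :
      MotIC L true (univFam A) (Z * mf L 1 1)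
  /-- the Thom-Sebastiani sum `∑ y_j f_j(x) + g(z)`, `g(0) = 0` -/
  | ts (A : Fam) (τ : Type) (g : MvPolynomial τ ℂ) (Z W : PowerSeries M)
      (h0 : constantCoeff g = 0)
      (hA : MotIC L false A Z) (hg : MotIC L true ⟨τ, Fin 1, fun _ => g⟩ W) :
      MotIC L true (tsFam A τ g) (tsSeries L Z W)
  /-- variables which do not occur may be dropped -/
  | drop (σ κ : Type) (g : MvPolynomial σ ℂ) (Z : PowerSeries M)
      (h : MotIC L true ⟨σ ⊕ κ, Fin 1, fun _ => rename Sum.inl g⟩ Z) :
      MotIC L true ⟨σ, Fin 1, fun _ => g⟩ Z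
  /-- and added -/
  | more (σ κ : Type) (hκ : Finite κ) (g : MvPolynomial σ ℂ) (Z : PowerSeries M)
      (h : MotIC L true ⟨σ, Fin 1, fun _ => g⟩ Z) :
      MotIC L true ⟨σ ⊕ κ, Fin 1, fun _ => rename Sum.inl g⟩ Z
  /-- the variables and the generators may be indexed differently -/
  | equiv (c : Bool) (A B : Fam) (i : A.σ ≃ B.σ) (k : A.ι ≃ B.ι)
      (h : ∀ j, B.f (k j) = rename i (A.f j)) (Z : PowerSeries M) (hA : MotIC L c A Z) :
      MotIC L c B Z
  /-- formal coordinates `φ` at the origin and a unit `u`: `f(φ) = u g` -/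
  | germ (N : ℕ) (f g : MvPolynomial (Fin N) ℂ) (φ : Fin N → MvPowerSeries (Fin N) ℂ)
      (u : MvPowerSeries (Fin N) ℂ) (hφ : IsCoord φ)
      (hφ0 : ∀ i, MvPowerSeries.constantCoeff (φ i) = 0) (hu : IsUnit u)
      (h : MvPowerSeries.subst φ (f : MvPowerSeries (Fin N) ℂ) =
        u * (g : MvPowerSeries (Fin N) ℂ)) (Z : PowerSeries M)
      (hg : MotIC L true ⟨Fin N, Fin 1, fun _ => g⟩ Z) :
      MotIC L true ⟨Fin N, Fin 1, fun _ => f⟩ Z
  /-- the cones `G = h(x) ∏_t (∑_j y_{t,j} f_{t,j}(x)) ^ a_t` of degree `d` in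
  `x = (x_0, ..., x_n)`: the projective space `ℙ^n` of the points `[q]` is the disjoint union of
  finitely many constructible subsets with the classes `w_i`, of total class `1 + L + ... + L^n`,
  and at the points `(y, x) = (0, q)`, `[q]` in the `i`-th subset, the germ of `G` has the zeta
  function `Z_i`; the germ at one point `q_i` of each subset is in the class. An arc `(y(t), x(t))`
  at the origin with `ord x(t) = k` is of the form `x(t) = t^k x'(t)`, `x'(0) = q ≠ 0`, and
  `G(y(t), x(t)) = t^(d k) G(y(t), x'(t))`, where `(y(t), x'(t))` is an arc at `(0, q)`; hence the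
  zeta function of `G` is `(L - 1) L^(-(n+1)) T^d / (1 - L^(-(n+1)) T^d) ∑_i w_i Z_i`. -/
  | cone (D : ConeData) (l : ℕ) (q : Fin l → Fin (D.n + 1) → ℂ) (hq : ∀ i, q i ≠ 0)
      (w : Fin l → M) (hw : ∑ i, w i = ∑ j ∈ Finset.range (D.n + 1), (L : M) ^ j)
      (Z : Fin l → PowerSeries M)
      (hZ : ∀ i, MotIC L true ⟨(Σ t, Fin (D.r t)) ⊕ Fin (D.n + 1), Fin 1,
        fun _ => tr (Sum.elim (fun _ => 0) (q i)) D.G⟩ (Z i)) :
      MotIC L true ⟨(Σ t, Fin (D.r t)) ⊕ Fin (D.n + 1), Fin 1, fun _ => D.G⟩
        (mf L D.d (D.n + 1) * ∑ i, PowerSeries.C (w i) * Z i)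

end Pool.Agent.K9h22.IC
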