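import Pool.Agent.Y475.TL.L
import Pool.Agent.K9h41.TS.Single

set_option autoImplicit false
set_option linter.unusedSectionVars false
set_option linter.unusedVariables false

/-! # Reduced forced roots and functional equations with formal power series coefficients -/

namespace Pool.Agent.K9h22.IC

open MvPolynomial Pool.Agent.W574.SM Pool.Agent.W574.HS Pool.Agent.W574.LM Pool.Agent.W574.RO
  Pool.Agent.Y229 Pool.Agent.Y230.TL Pool.Agent.K9h41.TS
open Pool.Agent.H628R4.TP (IsLocalBFunction IsBFunction)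

variable {σ : Type}

/-- reduced functional equations as functional equations -/
theorem mem_of_re {g : MvPolynomial σ ℂ} {B : Polynomial (MvPolynomial σ ℂ)} {P : ℕ →₀ weyl σ}
    (hP : RE g B P) :
    mulB ((Polynomial.X + 1) * B) (G0 (fun _ : Fin 1 => g)) ∈ V (fun _ : Fin 1 => g) 1 := by
  classical
  have h2 : mulB ((Polynomial.X + 1) * B) (G0 (fun _ : Fin 1 => g)) =
      gen (fun _ : Fin 1 => g) (P.mapDomain (fun m => Finsupp.single 0 m)) (fun _ => 1) := by
    funext s
    have h3 := hP (s 0)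
    have h4 : ((s 0 : ℕ) : MvPolynomial σ ℂ) = C ((s 0 : ℕ) : ℂ) := by simp
    rw [h4] at h3
    have h5 : gterm (fun _ : Fin 1 => g) (fun _ => 1) s = g ^ (s 0 + 1) := by
      unfold gterm
      simp
    rw [gen, h5, applyAt, Finsupp.sum_mapDomain_index (fun m => by simp) (fun m Q Q' => by
      rw [← smul_add]
      rfl)]
    simp only [mulB, G0, Fin.sum_univ_one, Fin.prod_univ_one, Finsupp.single_eq_same, Fin.isValue]
    rw [← h3, Polynomial.eval_mul, Polynomial.eval_add, Polynomial.eval_X,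
      Polynomial.eval_one, smul_eq_C_mul, map_add, map_one]
    ring
  rw [h2]
  exact gen_mem _ _ _ (by simp)

/-- functional equations as reduced functional equations -/
theorem re_of_mem {g : MvPolynomial σ ℂ} {B : Polynomial (MvPolynomial σ ℂ)}
    (hB : mulB ((Polynomial.X + 1) * B) (G0 (fun _ : Fin 1 => g)) ∈ V (fun _ : Fin 1 => g) 1) :
    ∃ P : ℕ →₀ weyl σ, RE g B P := by
  classical
  obtain ⟨S, P, hS, hP⟩ := std_of_mem _ 1 _ hB
  let Q : (Fin 1 →₀ ℕ) →₀ weyl σ := ∑ c ∈ S, P c
  let P1 : ℕ →₀ weyl σ := Q.mapDomain (fun β => β 0)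
  have key : ∀ k : ℕ, ((Polynomial.X + 1) * B).eval (C (k : ℂ)) * g ^ k =
      P1.sum fun m R => ((k : ℂ) ^ m) • (R : Module.End ℂ (MvPolynomial σ ℂ)) (g ^ (k + 1)) := by
    intro k
    have h1 := hP (fun _ => k)
    have h2 : mulB ((Polynomial.X + 1) * B) (G0 (fun _ : Fin 1 => g)) (fun _ => k) =
        ((Polynomial.X + 1) * B).eval (C (k : ℂ)) * g ^ k := by
      simp [mulB, G0]
    rw [← h2, h1]
    have h3 : ∀ c ∈ S, gen (fun _ : Fin 1 => g) (P c) c (fun _ => k) =
        applyAt (P c) (fun _ => k) (g ^ (k + 1)) := by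
      intro c hc
      have h4 : c 0 = 1 := by
        have := hS c hc
        simpa using this
      have h5 : gterm (fun _ : Fin 1 => g) c (fun _ => k) = g ^ (k + 1) := by
        unfold gterm
        simp [h4]
      rw [gen, h5]
    rw [Finset.sum_congr rfl h3]
    have h6 : ∑ c ∈ S, applyAt (P c) (fun _ : Fin 1 => k) (g ^ (k + 1)) =
        applyAt Q (fun _ => k) (g ^ (k + 1)) := by
      exact (Pool.Agent.Y475.TL.applyAt_sum S P _ _).symm
    rw [h6]
    show _ = (Q.mapDomain (fun β => β 0)).sum _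
    rw [Finsupp.sum_mapDomain_index (fun m => by simp) (fun m Q Q' => by
        rw [← smul_add]
        rfl)]
    unfold applyAt
    simp
  clear_value P1
  refine ⟨P1, fun k => ?_⟩
  have h4 : ((k : ℕ) : MvPolynomial σ ℂ) = C (k : ℂ) := by simp
  rw [h4, ← key k, Polynomial.eval_mul, Polynomial.eval_add, Polynomial.eval_X,
    Polynomial.eval_one, smul_eq_C_mul, map_add, map_one]
  ring

/-- from the ordinary functional equations with a polynomial unit to the general ones -/
theorem rf_of_locEq [Finite σ] (g : MvPolynomial σ ℂ) (hg : g ≠ 0) (p : σ → ℂ) (β : ℂ)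
    (h : ∀ (H : MvPolynomial σ ℂ) (b : Polynomial ℂ),
      IsLocEq H (fun _ : Fin 1 => g) ((Polynomial.X + 1) * b) → eval p H ≠ 0 →
        b.eval β = 0) : RF g p β := by
  classical
  intro B P hP
  have hB1 := mem_of_re hP
  by_contra hne
  obtain ⟨b0, hb0, hfe⟩ := exists_fe (fun _ : Fin 1 => g) ⟨0, hg⟩
  obtain ⟨b1, hb1, hnd⟩ := Polynomial.exists_eq_pow_rootMultiplicity_mul_and_not_dvd b0 hb0 β
  set k := b0.rootMultiplicity β with hk
  have hroot : b1.eval β ≠ 0 := fun h0 => hnd (Polynomial.dvd_iff_isRoot.2 h0)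
  obtain ⟨B', hB'⟩ : (Polynomial.X - Polynomial.C (C β : MvPolynomial σ ℂ)) ∣
      B - Polynomial.C (B.eval (C β)) := by
    rw [Polynomial.dvd_iff_isRoot, Polynomial.IsRoot, Polynomial.eval_sub, Polynomial.eval_C,
      sub_self]
  have hstep : ∀ j : ℕ, j ≤ k → ∃ H : MvPolynomial σ ℂ, eval p H ≠ 0 ∧
      mulB (Polynomial.C H * ((Polynomial.X + 1) *
        ((Polynomial.X - Polynomial.C β) ^ (k - j) * b1)).map C) (G0 (fun _ : Fin 1 => g)) ∈
        V (fun _ : Fin 1 => g) 1 := by
    intro j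
    induction j with
    | zero =>
      intro _
      refine ⟨1, by rw [map_one]; exact one_ne_zero, ?_⟩
      rw [map_one, one_mul, Nat.sub_zero, ← hb1, Polynomial.map_mul, mulB_mul]
      exact mulB_mem _ 1 _ _ ((functionalEq_iff' _ b0).1 hfe)
    | succ j ih =>
      intro hj
      obtain ⟨H, hH, hV⟩ := ih (by omega)
      refine ⟨B.eval (C β) * H, by rw [map_mul]; exact mul_ne_zero hne hH, ?_⟩
      obtain ⟨i, hi⟩ : ∃ i, k - j = i + 1 := ⟨k - j - 1, by omega⟩
      have hi' : k - (j + 1) = i := by omega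
      rw [hi']
      rw [hi] at hV
      have h1 : mulB (Polynomial.C H * ((Polynomial.X - Polynomial.C β) ^ i * b1).map C)
          (mulB ((Polynomial.X + 1) * B) (G0 (fun _ : Fin 1 => g))) ∈
            V (fun _ : Fin 1 => g) 1 := mulB_mem _ 1 _ _ hB1
      have h2 := mulB_mem _ 1 B' _ hV
      have h3 : mulB (Polynomial.C (B.eval (C β) * H) *
          ((Polynomial.X + 1) * ((Polynomial.X - Polynomial.C β) ^ i * b1)).map C)
            (G0 (fun _ : Fin 1 => g)) =
          mulB (Polynomial.C H * ((Polynomial.X - Polynomial.C β) ^ i * b1).map C)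
            (mulB ((Polynomial.X + 1) * B) (G0 (fun _ : Fin 1 => g))) -
              mulB B' (mulB (Polynomial.C H * ((Polynomial.X + 1) *
              ((Polynomial.X - Polynomial.C β) ^ (i + 1) * b1)).map C)
                (G0 (fun _ : Fin 1 => g))) := by
        rw [← mulB_mul, ← mulB_mul, ← mulB_sub]
        congr 1
        have h4 : B = Polynomial.C (B.eval (C β)) +
            (Polynomial.X - Polynomial.C (C β : MvPolynomial σ ℂ)) * B' := by
          rw [← hB']
          ring
        conv_rhs => rw [h4]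
        simp only [Polynomial.map_mul, Polynomial.map_pow, Polynomial.map_sub, Polynomial.map_X,
          Polynomial.map_C, map_mul, Polynomial.map_add, Polynomial.map_one]
        ring
      rw [h3]
      exact Submodule.sub_mem _ h1 h2
  obtain ⟨H, hH, hV⟩ := hstep k le_rfl
  rw [Nat.sub_self, pow_zero, one_mul] at hV
  exact hroot (h H b1 ((isLocEq_iff H _ _).2 hV) hH)

/-- functional equations with a polynomial unit as functional equations with formal power series
as coefficients -/
theorem local_of_locEq (g H : MvPolynomial σ ℂ) (b : Polynomial ℂ)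
    (h : IsLocEq H (fun _ : Fin 1 => g) b) (hH : constantCoeff H ≠ 0) : IsLocalBFunction g b := by
  classical
  obtain ⟨L, m, Q, hQ⟩ := single_eq g H b h
  have hu : IsUnit ((H : MvPolynomial σ ℂ) : MvPowerSeries σ ℂ) := by
    rw [MvPowerSeries.isUnit_iff_constantCoeff]
    refine isUnit_iff_ne_zero.2 ?_
    rw [← MvPowerSeries.coeff_zero_eq_constantCoeff_apply, MvPolynomial.coeff_coe]
    exact hH
  obtain ⟨v, hv⟩ := hu.exists_left_inv
  refine ⟨L, m, fun _ => v, fun i => ⟨(Q i).1, (Q i).2⟩, fun s => ?_⟩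
  have h1 : ((H * (C (b.eval (s : ℂ)) * g ^ s) : MvPolynomial σ ℂ) : MvPowerSeries σ ℂ) =
      ((∑ i, ((s : ℂ) ^ m i) • (Q i : Module.End ℂ (MvPolynomial σ ℂ)) (g ^ (s + 1)) :
        MvPolynomial σ ℂ) : MvPowerSeries σ ℂ) := by rw [hQ s]
  have h2 : ((∑ i, ((s : ℂ) ^ m i) • (Q i : Module.End ℂ (MvPolynomial σ ℂ)) (g ^ (s + 1)) :
      MvPolynomial σ ℂ) : MvPowerSeries σ ℂ) = ∑ i, MvPowerSeries.C ((s : ℂ) ^ m i) *
        (((Q i : Module.End ℂ (MvPolynomial σ ℂ)) (g ^ (s + 1)) : MvPolynomial σ ℂ) :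
          MvPowerSeries σ ℂ) := by
    have h3 := map_sum (MvPolynomial.coeToMvPowerSeries.ringHom (σ := σ) (R := ℂ))
      (fun i => ((s : ℂ) ^ m i) • (Q i : Module.End ℂ (MvPolynomial σ ℂ)) (g ^ (s + 1)))
      Finset.univ
    simp only [MvPolynomial.coeToMvPowerSeries.ringHom_apply] at h3
    rw [h3]
    refine Finset.sum_congr rfl fun i _ => ?_
    rw [smul_eq_C_mul, MvPolynomial.coe_mul, MvPolynomial.coe_C]
  rw [h2, MvPolynomial.coe_mul, MvPolynomial.coe_mul, MvPolynomial.coe_C] at h1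
  calc MvPowerSeries.C (b.eval (s : ℂ)) * ((g ^ s : MvPolynomial σ ℂ) : MvPowerSeries σ ℂ)
      = v * (H : MvPowerSeries σ ℂ) * (MvPowerSeries.C (b.eval (s : ℂ)) *
          ((g ^ s : MvPolynomial σ ℂ) : MvPowerSeries σ ℂ)) := by rw [hv, one_mul]
    _ = v * ∑ i, MvPowerSeries.C ((s : ℂ) ^ m i) *
        (((Q i : Module.End ℂ (MvPolynomial σ ℂ)) (g ^ (s + 1)) : MvPolynomial σ ℂ) :
          MvPowerSeries σ ℂ) := by rw [← h1, mul_assoc]
    _ = _ := by
      rw [Finset.mul_sum]
      refine Finset.sum_congr rfl fun i _ => ?_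
      ring

/-- **Reduced forced roots from the local functional equations.** -/
theorem rf_of_localB [Finite σ] (g : MvPolynomial σ ℂ) (hg : g ≠ 0) (β : ℂ)
    (h : ∀ b : Polynomial ℂ, IsLocalBFunction g ((Polynomial.X + 1) * b) → b.eval β = 0) :
    RF g 0 β := by
  refine rf_of_locEq g hg 0 β fun H b hb hH => h b (local_of_locEq g H _ hb ?_)
  rwa [MvPolynomial.eval_zero] at hH

/-- **The local functional equations have the reduced forced roots.** -/
theorem localB_of_rf (g : MvPolynomial σ ℂ) (hf : Finite σ) (hg : g ≠ 0) (β : ℂ) (h : RF g 0 β)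
    (b : Polynomial ℂ) (hb : IsLocalBFunction g ((Polynomial.X + 1) * b)) : b.eval β = 0 := by
  classical
  obtain ⟨H, P, hH, hP⟩ := algebraic_of_local g hg _ hb
  have h1 : mulB (Polynomial.C H * ((Polynomial.X + 1) * b).map C) (G0 (fun _ : Fin 1 => g)) ∈
      V (fun _ : Fin 1 => g) 1 := (isLocEq_iff H _ _).1 (locEq_single g H _ P hP)
  have h2 : Polynomial.C H * ((Polynomial.X + 1) * b).map C =
      (Polynomial.X + 1) * (Polynomial.C H * b.map (C : ℂ →+* MvPolynomial σ ℂ)) := by
    rw [Polynomial.map_mul, Polynomial.map_add, Polynomial.map_X, Polynomial.map_one]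
    ring
  rw [h2] at h1
  obtain ⟨P', hP'⟩ := re_of_mem h1
  have h3 := h _ P' hP'
  rw [Polynomial.eval_mul, Polynomial.eval_C, eval_mapC, map_mul, eval_C,
    MvPolynomial.eval_zero] at h3
  exact (mul_eq_zero.1 h3).resolve_left hH

/-- **Transfer of reduced forced roots.** -/
theorem rf_transfer {τ : Type} [Finite σ] (g : MvPolynomial σ ℂ) (hg : g ≠ 0)
    (f : MvPolynomial τ ℂ) (hf : Finite τ) (hf0 : f ≠ 0)
    (h : ∀ b : Polynomial ℂ, IsLocalBFunction g b → IsLocalBFunction f b) (β : ℂ)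
    (hr : RF f 0 β) : RF g 0 β :=
  rf_of_localB g hg β fun b hb => localB_of_rf f hf hf0 β hr b (h _ hb)

/-- a polynomial with a reduced forced root vanishes -/
theorem zero_of_rf (hL : StL) (g : MvPolynomial σ ℂ) (β : ℂ) (h : RF g 0 β) :
    constantCoeff g = 0 := zero_of_sf g β (hL.sf_of_rf g 0 β h)

end Pool.Agent.K9h22.IC
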