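import Pool.Agent.K9h41.TS.Series
import Pool.Agent.W574.RO.Main

set_option autoImplicit false
set_option linter.unusedSectionVars false
set_option linter.unusedVariables false

/-! # The reduced series of a cone -/

namespace Pool.Agent.K9h22.IC

open PowerSeries Pool.Agent.W574.MO Pool.Agent.W574.RO Pool.Agent.K9h41.TS

variable {M : Type} [CommRing M] (L : Mˣ)

theorem redu_form (Z : M⟦X⟧) :
    (1 - X) * redu L Z = C ((L : M) - 1) - (C (L : M) - X) * Z := by
  apply X_cancel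
  have h1 := redu_eq L Z
  have h2 := tail_eq 1 Z
  rw [map_one] at h2
  rw [map_sub, map_one]
  linear_combination (1 - X) * h1 + (C (L : M) - X) * h2

/-- **The reduced series of a cone.** -/
theorem redu_cone {d : ℕ} (hd : 1 ≤ d) (n : ℕ) {l : ℕ} (u : Fin l → M) (Z : Fin l → M⟦X⟧)
    (hu : ∑ i, u i = ∑ j ∈ Finset.range n, (L : M) ^ j) :
    redu L (mf L d n * ∑ i, C (u i) * Z i) =
      (C ((L : M) - 1) * ∑ j ∈ Finset.range d, X ^ j +
        C ((L : M) - 1) * qq L d n * ∑ i, C (u i) * redu L (Z i)) * geo L d n := by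
  apply one_sub_X_cancel
  rw [redu_form, mf_pos L hd]
  have h1 : ∀ i, (1 - X) * redu L (Z i) = C ((L : M) - 1) - (C (L : M) - X) * Z i :=
    fun i => redu_form L (Z i)
  have h2 : (1 - X) * ∑ i, C (u i) * redu L (Z i) =
      C ((L : M) - 1) * C (∑ i, u i) - (C (L : M) - X) * ∑ i, C (u i) * Z i := by
    rw [map_sum, Finset.mul_sum, Finset.mul_sum, Finset.mul_sum, ← Finset.sum_sub_distrib]
    refine Finset.sum_congr rfl fun i _ => ?_
    linear_combination C (u i) * h1 i
  have h3 : C ((L : M) - 1) * C (∑ i, u i) = C ((L : M) ^ n) - (1 : M⟦X⟧) := by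
    rw [hu, ← map_mul, ← map_one (C (R := M)), ← map_sub]
    congr 1
    exact mul_geom_sum (L : M) n
  have h4 : qq L d n * C ((L : M) ^ n) = (X : M⟦X⟧) ^ d := by
    rw [qq, mul_right_comm, ← map_mul]
    have : ((L⁻¹ ^ n : Mˣ) : M) * (L : M) ^ n = 1 := by
      rw [← Units.val_pow_eq_pow_val, ← Units.val_mul, ← mul_pow, inv_mul_cancel, one_pow,
        Units.val_one]
    rw [this, map_one, one_mul]
  have h5 : (1 - X : M⟦X⟧) * ∑ j ∈ Finset.range d, X ^ j = 1 - X ^ d := mul_neg_geom_sum X d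
  have h6 := geo_mul L hd n
  rw [h3] at h2
  set S := ∑ i, C (u i) * Z i with hS
  set R := ∑ i, C (u i) * redu L (Z i) with hR
  set G := ∑ j ∈ Finset.range d, (X : M⟦X⟧) ^ j with hG
  linear_combination (-(C ((L : M) - 1) * geo L d n)) * h5 -
    (C ((L : M) - 1) * qq L d n * geo L d n) * h2 -
      (C ((L : M) - 1) * geo L d n) * h4 - C ((L : M) - 1) * h6

theorem redu_cone_mem {K : ℕ → ℕ → Prop} {d : ℕ} (hd : 1 ≤ d) {n : ℕ} (hn : 1 ≤ n) {l : ℕ}
    (u : Fin l → M) (Z : Fin l → M⟦X⟧)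
    (hu : ∑ i, u i = ∑ j ∈ Finset.range n, (L : M) ^ j) (hK : K d n)
    (hZ : ∀ i, redu L (Z i) ∈ DenRing L K) :
    redu L (mf L d n * ∑ i, C (u i) * Z i) ∈ DenRing L K := by
  rw [redu_cone L hd n u Z hu]
  refine (DenRing L K).mul_mem ((DenRing L K).add_mem ((DenRing L K).mul_mem (C_mem _)
    ((DenRing L K).sum_mem fun j _ => (DenRing L K).pow_mem X_mem _))
      ((DenRing L K).mul_mem ((DenRing L K).mul_mem (C_mem _) (qq_mem _ _))
        ((DenRing L K).sum_mem fun i _ => (DenRing L K).mul_mem (C_mem _) (hZ i))))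
          (geo_mem hd hn hK)

end Pool.Agent.K9h22.IC
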