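import Pool.Agent.K9h22.IC.Defs
import Pool.Agent.K9h22.IC.Cone
import Pool.Agent.K9h22.IC.Ser
import Pool.Agent.K9h41.TS.Main
import Pool.Agent.Y229.PS.Coord
import Pool.Agent.Y229.PS.Unit

set_option autoImplicit false
set_option linter.unusedSectionVars false
set_option linter.unusedVariables false
set_option maxHeartbeats 400000

/-! # Local motivic zeta functions of iterated cones and Thom-Sebastiani sums: the induction -/

namespace Pool.Agent.K9h22.IC

open Pool.Agent.W574.MO Pool.Agent.W574.SM Pool.Agent.W574.LM Pool.Agent.W574.HS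
  Pool.Agent.W574.CN Pool.Agent.Y229 Pool.Agent.Y230.TL Pool.Agent.K9h41.TS
open Pool.Agent.W574.RO hiding FF
open Pool.Agent.H628R4.TP (IsLocalBFunction)
open Pool.Agent.Y229.GL (IsCoord)

/-- **Transfer of forced roots.** -/
theorem sf_transfer {σ τ : Type} [Finite σ] (g : MvPolynomial σ ℂ) (hg : g ≠ 0)
    (f : MvPolynomial τ ℂ) (hf : Finite τ) (hf0 : f ≠ 0)
    (h : ∀ b : Polynomial ℂ, IsLocalBFunction g b → IsLocalBFunction f b) (β : ℂ)
    (hr : SF (fun _ : Fin 1 => f) 0 β) : SF (fun _ : Fin 1 => g) 0 β := by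
  classical
  refine sf_of_local _ 0 β (fun H b hb hH => ?_) (exists_fe _ ⟨0, hg⟩)
  rw [MvPolynomial.eval_zero] at hH
  exact root_of_sf hf f hf0 β hr b (h b (local_of_locEq g H b hb hH))

/-- formal coordinates and units -/
theorem local_germ {N : ℕ} (f g : MvPolynomial (Fin N) ℂ)
    (φ : Fin N → MvPowerSeries (Fin N) ℂ) (u : MvPowerSeries (Fin N) ℂ) (hφ : IsCoord φ)
    (hφ0 : ∀ i, MvPowerSeries.constantCoeff (φ i) = 0) (hu : IsUnit u)
    (h : MvPowerSeries.subst φ (f : MvPowerSeries (Fin N) ℂ) =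
      u * (g : MvPowerSeries (Fin N) ℂ)) (b : Polynomial ℂ) (hb : IsLocalBFunction f b) :
    IsLocalBFunction g b := by
  obtain ⟨u, rfl⟩ := hu
  refine Pool.Agent.Y229.PS.local_of_formal
    (Pool.Agent.Y229.PS.formal_of_unit (Units.inv_mul u) ?_)
  rw [← h]
  exact Pool.Agent.Y229.PS.coordB hφ hφ0 (Pool.Agent.Y229.PS.formal_of_local hb)

variable {M : Type} [CommRing M]

/-- **The induction.** -/
theorem closure (hJ : StJ) (hU : StU) (hL : StL) {L : Mˣ} (c : Bool) (A : Fam) (Z : PowerSeries M)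
    (h : MotIC L c A Z) : Inv L c A Z := by
  classical
  induction h with
  | base c A Z h => exact Pool.Agent.K9h41.TS.closure hJ hU hL c A Z h
  | hyp A Z h ih => exact ⟨ih.fin, ih.ne, ih.tl, fun h0 => absurd h0 (by simp)⟩
  | sum A B Z W hA hB ihA ihB =>
    have := ihA.fin
    have := ihB.fin
    refine ⟨inferInstanceAs (Finite (A.σ ⊕ B.σ)), sum_ne ihA.ne, ?_, fun h0 => absurd h0 (by simp)⟩
    rw [tail_min]
    refine had_mem ihA.tl ihB.tl fun a n a' n' l ha hn hK ha' hn' hK' hl hal hal' => ?_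
    have h1 := sf_sum A.f B.f 0 0 _ _ hK hK'
    have h3 : (Sum.elim (0 : A.σ → ℂ) (0 : B.σ → ℂ)) = 0 := by
      funext x
      rcases x with x | x <;> rfl
    rw [add_frac ha ha' hl hal hal', h3] at h1
    exact h1
  | mul A B Z W hA hB ihA ihB =>
    have := ihA.fin
    have := ihB.fin
    have hneA := ihA.ne
    have hneB := ihB.ne
    have h3 : (Sum.elim (0 : A.σ → ℂ) (0 : B.σ → ℂ)) = 0 := by
      funext x
      rcases x with x | x <;> rfl
    refine ⟨inferInstanceAs (Finite (A.σ ⊕ B.σ)), mul_ne hneA hneB, ?_,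
      fun h0 => absurd h0 (by simp)⟩
    refine tail_mul_mem (denRing_mono (fun a n _ _ h => ?_) ihA.tl)
      (denRing_mono (fun a n _ _ h => ?_) ihB.tl)
    · have h1 := sf_mul A.f B.f 0 0 _ h hneB
      rw [h3] at h1
      exact h1
    · have h1 := sf_mul' A.f B.f 0 0 _ h hneA
      rw [h3] at h1
      exact h1
  | univ A Z hA ihA =>
    have hfA := ihA.fin
    have hneA := ihA.ne
    have hfin : Finite (A.ι ⊕ A.σ) := inferInstance
    have hz : MvPolynomial.constantCoeff (∑ j, MvPolynomial.X (Sum.inl j) *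
        MvPolynomial.rename Sum.inr (A.f j) : MvPolynomial (A.ι ⊕ A.σ) ℂ) = 0 := by
      rw [map_sum]
      refine Finset.sum_eq_zero fun j _ => ?_
      rw [map_mul, MvPolynomial.constantCoeff_X, zero_mul]
    have hrd : redu L (Z * mf L 1 1) ∈ DenRing L (KR (univFam A)) := by
      rw [redu_univ]
      exact (DenRing L _).mul_mem (C_mem _)
        (denRing_mono (fun a n _ _ h _ => sf_univFam hU A _ h) ihA.tl)
    exact ⟨hfin, ⟨(0 : Fin 1), univFam_ne A hneA⟩,
      tail_of_kr (σ := A.ι ⊕ A.σ) hL _ (univFam_ne A hneA) hz hrd, fun _ => hrd⟩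
  | ts A τ g Z W h0 hA hg ihA ihg =>
    have hfA := ihA.fin
    have hfg : Finite τ := ihg.fin
    have hneA := ihA.ne
    have hg0 : g ≠ 0 := by
      obtain ⟨j, hj⟩ := ihg.ne
      exact hj
    have hfin : Finite ((A.ι ⊕ A.σ) ⊕ τ) := inferInstance
    have hz : MvPolynomial.constantCoeff (MvPolynomial.rename Sum.inl
        (∑ j, MvPolynomial.X (Sum.inl j) * MvPolynomial.rename Sum.inr (A.f j) :
          MvPolynomial (A.ι ⊕ A.σ) ℂ) + MvPolynomial.rename Sum.inr g :
            MvPolynomial ((A.ι ⊕ A.σ) ⊕ τ) ℂ) = 0 := by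
      rw [map_add, MvPolynomial.constantCoeff_rename, MvPolynomial.constantCoeff_rename, h0,
        add_zero, map_sum]
      refine Finset.sum_eq_zero fun j _ => ?_
      rw [map_mul, MvPolynomial.constantCoeff_X, zero_mul]
    have hrd : redu L (tsSeries L Z W) ∈ DenRing L (KR (tsFam A τ g)) := by
      rw [redu_ts]
      refine had_mem ihA.tl (ihg.rd rfl)
        fun a n a' n' l ha hn hK ha' hn' hK' hl hal hal' j => ?_
      have h1 := rf_tsFam hJ hL A τ g hg0 _ _ hK (hK' (0 : Fin 1))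
      rw [add_frac ha ha' hl hal hal'] at h1
      exact h1
    exact ⟨hfin, ⟨(0 : Fin 1), tsFam_ne A τ g hg0⟩,
      tail_of_kr (σ := (A.ι ⊕ A.σ) ⊕ τ) hL _ (tsFam_ne A τ g hg0) hz hrd, fun _ => hrd⟩
  | drop σ κ g Z h ih =>
    have hf : Finite (σ ⊕ κ) := ih.fin
    have hf' : Finite σ := Finite.of_injective (Sum.inl : σ → σ ⊕ κ) Sum.inl_injective
    have hg0 : g ≠ 0 := by
      rintro rfl
      obtain ⟨j, hj⟩ := ih.ne
      exact hj (map_zero _)
    refine ⟨hf', ⟨(0 : Fin 1), hg0⟩, denRing_mono (fun a n _ _ h1 => ?_) ih.tl,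
      fun h0 => denRing_mono (fun a n _ _ h1 j => ?_) (ih.rd h0)⟩
    · by_cases h2 : -(n : ℂ) / a = -1
      · rw [KS, h2]
        refine sf_minus_one g hg0 ?_
        have h3 : MvPolynomial.constantCoeff
            (MvPolynomial.rename Sum.inl g : MvPolynomial (σ ⊕ κ) ℂ) = 0 := zero_of_sf _ _ h1
        rwa [MvPolynomial.constantCoeff_rename] at h3
      · exact hL.sf_of_rf g 0 _ (rf_drop hL (κ := κ) g _ (hL.rf_of_sf _ 0 _ h2 h1))
    · exact rf_drop hL (κ := κ) g _ (h1 (0 : Fin 1))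
  | more σ κ hκ g Z h ih =>
    have hf : Finite σ := ih.fin
    have hf' : Finite (σ ⊕ κ) := inferInstance
    have hg0 : g ≠ 0 := by
      obtain ⟨j, hj⟩ := ih.ne
      exact hj
    have hg1 : (MvPolynomial.rename Sum.inl g : MvPolynomial (σ ⊕ κ) ℂ) ≠ 0 := fun h0 =>
      hg0 (MvPolynomial.rename_injective _ Sum.inl_injective (by rw [h0, map_zero]))
    have he : (Sum.elim (0 : σ → ℂ) (0 : κ → ℂ)) = 0 := by
      funext x
      rcases x with x | x <;> rfl
    have hrf : ∀ β : ℂ, RF g 0 β →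
        RF (MvPolynomial.rename Sum.inl g : MvPolynomial (σ ⊕ κ) ℂ) 0 β := by
      intro β hβ
      have h1 := rf_more (κ := κ) g 0 0 β hβ
      rwa [he] at h1
    refine ⟨hf', ⟨(0 : Fin 1), hg1⟩, denRing_mono (fun a n _ _ h1 => ?_) ih.tl,
      fun h0 => denRing_mono (fun a n _ _ h1 j => ?_) (ih.rd h0)⟩
    · by_cases h2 : -(n : ℂ) / a = -1
      · rw [KS, h2]
        have h3 : MvPolynomial.constantCoeff g = 0 := zero_of_sf _ _ h1
        have h4 : MvPolynomial.constantCoeff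
            (MvPolynomial.rename Sum.inl g : MvPolynomial (σ ⊕ κ) ℂ) = 0 := by
          rw [MvPolynomial.constantCoeff_rename]
          exact h3
        exact sf_minus_one _ hg1 h4
      · exact hL.sf_of_rf _ 0 _ (hrf _ (hL.rf_of_sf _ 0 _ h2 h1))
    · exact hrf _ (h1 (0 : Fin 1))
  | equiv c A B i k h Z hA ihA =>
    have hf := ihA.fin
    refine ⟨Finite.of_equiv A.σ i, ?_, denRing_mono (fun a n _ _ hS => ?_) ihA.tl,
      fun h0 => denRing_mono (fun a n _ _ hS j => ?_) (ihA.rd h0)⟩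
    · obtain ⟨j, hj⟩ := ihA.ne
      refine ⟨k j, ?_⟩
      rw [h, Ne, map_eq_zero_iff _ (MvPolynomial.rename_injective _ i.injective)]
      exact hj
    · exact sf_equiv i k A.f B.f h 0 _ hS
    · obtain ⟨j', rfl⟩ := k.surjective j
      rw [h]
      exact rf_equiv hL i _ _ (hS j')
  | germ N f g φ u hφ hφ0 hu h Z hg ih =>
    have hg0 : g ≠ 0 := by
      obtain ⟨j, hj⟩ := ih.ne
      exact hj
    have hf0 : f ≠ 0 := by
      rintro rfl
      have hs := MvPowerSeries.hasSubst_of_constantCoeff_zero hφ0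
      rw [MvPolynomial.coe_zero, ← MvPowerSeries.coe_substAlgHom hs, map_zero] at h
      have h1 := (hu.mul_right_eq_zero).1 h.symm
      exact hg0 (MvPolynomial.coe_injective (Fin N) ℂ (by rw [h1, MvPolynomial.coe_zero]))
    have ht := local_germ f g φ u hφ hφ0 hu h
    refine ⟨inferInstanceAs (Finite (Fin N)), ⟨(0 : Fin 1), hf0⟩,
      denRing_mono (fun a n _ _ h1 => ?_) ih.tl,
      fun h0 => denRing_mono (fun a n _ _ h1 j => ?_) (ih.rd h0)⟩
    · exact sf_transfer f hf0 g inferInstance hg0 ht _ h1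
    · exact rf_transfer f hf0 g inferInstance hg0 ht _ (h1 (0 : Fin 1))
  | cone D l q hq w hw Z hZ ih =>
    have hfin : Finite ((Σ t, Fin (D.r t)) ⊕ Fin (D.n + 1)) := inferInstance
    have hne : D.G ≠ 0 := form_ne D.a D.h D.f D.hh0 D.hf0
    set t0 : Fin D.m := ⟨0, D.hm⟩ with ht0
    have hz : MvPolynomial.constantCoeff D.G = 0 := by
      have h1 := form_eval D.a D.h D.f t0 (D.ha t0).ne' 0
      have h2 : (Sum.elim (fun _ => 0) 0 : (Σ t, Fin (D.r t)) ⊕ Fin (D.n + 1) → ℂ) = 0 := by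
        funext x
        rcases x with x | x <;> rfl
      rw [h2, MvPolynomial.eval_zero] at h1
      exact h1
    have hrd : redu L (mf L D.d (D.n + 1) * ∑ i, PowerSeries.C (w i) * Z i) ∈
        DenRing L (KR ⟨(Σ t, Fin (D.r t)) ⊕ Fin (D.n + 1), Fin 1, fun _ => D.G⟩) := by
      refine redu_cone_mem L D.hd (Nat.succ_pos _) w Z hw (fun _ => ?_) fun i => ?_
      · exact rf_top D.a D.h D.f D.dh D.δ D.hh D.hf D.hh0 D.hf0 t0 (D.ha t0).ne' D.hd D.J D.hJ
      · refine denRing_mono (fun a n _ _ h1 _ => ?_) ((ih i).rd rfl)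
        exact rf_cone_point D.a D.h D.f D.dh D.δ D.hh D.hf D.hh0 D.hf0 _ _ (h1 (0 : Fin 1))
    exact ⟨hfin, ⟨(0 : Fin 1), hne⟩, tail_of_kr hL _ hne hz hrd, fun _ => hrd⟩

/-- **The local motivic monodromy conjecture for the hypersurfaces in the class.** -/
theorem ic_main {L : Mˣ} {σ : Type} (F : MvPolynomial σ ℂ) (Z : PowerSeries M)
    (h : MotIC L false ⟨σ, Fin 1, fun _ => F⟩ Z) (b : Polynomial ℂ) (hb : IsLocalBFunction F b) :
    Z ∈ DenRing L (RootPair b) := by
  classical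
  have hI := closure (Pool.Agent.Y448.TL.tJ Pool.Agent.Y230.TL.tA Pool.Agent.Y64.TL.tB)
    (Pool.Agent.Y230.TL.tU Pool.Agent.Y64.TL.tB) Pool.Agent.Y475.TL.tL false _ Z h
  obtain ⟨j, hj⟩ := hI.ne
  have := hI.fin
  exact denRing_mono (fun a n _ _ h1 => root_of_sf hI.fin F hj _ h1 b hb) (mem_of_tail hI.tl)

end Pool.Agent.K9h22.IC
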