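import Pool.Agent.K9h22.IC.Loc
import Pool.Agent.K9h22.IC.Tr
import Pool.Agent.W574.RO.Tensor
import Pool.Agent.Y229.SP3

set_option autoImplicit false
set_option linter.unusedSectionVars false
set_option linter.unusedVariables false

/-! # Reduced forced roots: further variables, translations -/

namespace Pool.Agent.K9h22.IC

open MvPolynomial Pool.Agent.W574.SM Pool.Agent.W574.HS Pool.Agent.W574.LM Pool.Agent.W574.RO
  Pool.Agent.Y229 Pool.Agent.Y230.TL Pool.Agent.K9h41.TS
open Pool.Agent.H628R4.TP (IsLocalBFunction IsBFunction weylS)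

variable {σ κ : Type}

/-- **Reduced forced roots and further variables.** -/
theorem rf_more (g : MvPolynomial σ ℂ) (p : σ → ℂ) (q : κ → ℂ) (β : ℂ) (h : RF g p β) :
    RF (rename Sum.inl g : MvPolynomial (σ ⊕ κ) ℂ) (Sum.elim p q) β := by
  classical
  intro B P hP
  choose m Q Q' hQ using fun i : ℕ => weyl_splits (P i).1 (P i).2
  set R : ℕ → weyl σ := fun i =>
    ∑ j, (eval q ((Q' i j : Module.End ℂ (MvPolynomial κ ℂ)) 1)) • Q i j with hR
  have hR1 : ∀ (i : ℕ) (u : MvPolynomial σ ℂ), evy q ((P i : Module.End ℂ _) (rename Sum.inl u)) =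
      (R i : Module.End ℂ (MvPolynomial σ ℂ)) u := by
    intro i u
    have h1 := hQ i u 1
    rw [map_one, mul_one] at h1
    rw [h1, map_sum, hR]
    simp only [AddSubmonoidClass.coe_finsetSum, LinearMap.sum_apply]
    refine Finset.sum_congr rfl fun j _ => ?_
    rw [map_mul, evy_inl, evy_inr, mul_comm, ← smul_eq_C_mul]
    rfl
  have hC : ∀ k : ℕ, ((k : ℕ) : MvPolynomial σ ℂ) = C (k : ℂ) := fun k => by simp
  have hC' : ∀ k : ℕ, ((k : ℕ) : MvPolynomial (σ ⊕ κ) ℂ) = C (k : ℂ) := fun k => by simp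
  have h2 : RE g (B.map ((evy q : MvPolynomial (σ ⊕ κ) ℂ →ₐ[ℂ] MvPolynomial σ ℂ) :
      MvPolynomial (σ ⊕ κ) ℂ →+* MvPolynomial σ ℂ))
        (∑ i ∈ P.support, Finsupp.single i (R i)) := by
    intro k
    have h3 := congrArg (evy q : MvPolynomial (σ ⊕ κ) ℂ → MvPolynomial σ ℂ) (hP k)
    rw [← map_pow, ← map_pow, Finsupp.sum, map_sum, map_smul, map_mul, evy_inl, hC'] at h3
    rw [hC, eval_mapE, h3, ← Finsupp.sum_finsetSum_index]
    · refine Finset.sum_congr rfl fun i _ => ?_
      rw [Finsupp.sum_single_index (by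
        rw [ZeroMemClass.coe_zero, LinearMap.zero_apply, smul_zero]), map_smul, hR1]
    · intro a
      rw [ZeroMemClass.coe_zero, LinearMap.zero_apply, smul_zero]
    · intro a A B
      rw [← smul_add]
      rfl
  have h4 := h _ _ h2
  rw [eval_mapE, eval_evy] at h4
  exact h4

theorem tr_tr (p q : σ → ℂ) (g : MvPolynomial σ ℂ) : tr p (tr q g) = tr (p + q) g := by
  have h : (tr p).comp (tr q) = tr (p + q) := by
    refine MvPolynomial.algHom_ext fun i => ?_
    rw [AlgHom.comp_apply, tr, tr, tr, aeval_X, map_add, aeval_X, aeval_X, algHom_C]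
    rw [algebraMap_eq, Pi.add_apply, map_add]
    ring
  exact DFunLike.congr_fun h g

theorem tr_zero (g : MvPolynomial σ ℂ) : tr 0 g = g := by
  have h : (tr (0 : σ → ℂ)) = AlgHom.id ℂ (MvPolynomial σ ℂ) := by
    refine MvPolynomial.algHom_ext fun i => ?_
    rw [tr, aeval_X, Pi.zero_apply, map_zero, add_zero]
    rfl
  rw [h]
  rfl

theorem tr_injective (p : σ → ℂ) : Function.Injective (tr p) := by
  intro a b h
  have h1 := congrArg (tr (-p)) h
  rwa [tr_tr, tr_tr, neg_add_cancel, tr_zero, tr_zero] at h1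

theorem tr_pderiv (p : σ → ℂ) (i : σ) (g : MvPolynomial σ ℂ) :
    tr p (pderiv i g) = pderiv i (tr p g) := by
  classical
  induction g using MvPolynomial.induction_on with
  | C a => rw [pderiv_C, map_zero, tr, algHom_C, algebraMap_eq, pderiv_C]
  | add p q hp hq => rw [map_add, map_add, map_add, map_add, hp, hq]
  | mul_X f j hf =>
    have h1 : pderiv i (X j + C (p j) : MvPolynomial σ ℂ) = pderiv i (X j) := by
      rw [map_add, pderiv_C, add_zero]
    have h2 : tr p (X j) = X j + C (p j) := by rw [tr, aeval_X]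
    have h3 : tr p (pderiv i (X j) : MvPolynomial σ ℂ) = pderiv i (X j) := by
      rw [pderiv_X]
      by_cases hij : i = j
      · subst hij
        rw [Pi.single_eq_same, map_one]
      · rw [Pi.single_eq_of_ne (Ne.symm hij), map_zero]
    rw [Derivation.leibniz, map_mul, Derivation.leibniz, map_add, smul_eq_mul, smul_eq_mul,
      smul_eq_mul, smul_eq_mul, map_mul, map_mul, hf, h2, h1, h3]

theorem tr_weyl (p : σ → ℂ) (Q : Module.End ℂ (MvPolynomial σ ℂ)) (hQ : Q ∈ weylS σ) :
    ∃ Q' ∈ weylS σ, ∀ g : MvPolynomial σ ℂ, tr p (Q g) = Q' (tr p g) := by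
  classical
  have hX : ∀ i : σ, LinearMap.mulLeft ℂ (X i : MvPolynomial σ ℂ) ∈ weylS σ := fun i =>
    Algebra.subset_adjoin (Or.inl ⟨i, rfl⟩)
  unfold weylS at hQ
  induction hQ using Algebra.adjoin_induction with
  | mem R h =>
    rcases h with ⟨i, rfl⟩ | ⟨i, rfl⟩
    · refine ⟨LinearMap.mulLeft ℂ (X i : MvPolynomial σ ℂ) + algebraMap ℂ _ (p i),
        Subalgebra.add_mem _ (hX i) (Subalgebra.algebraMap_mem _ _), fun g => ?_⟩
      rw [LinearMap.mulLeft_apply, map_mul, LinearMap.add_apply, LinearMap.mulLeft_apply,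
        Module.algebraMap_end_apply]
      have h2 : tr p (X i) = X i + C (p i) := by rw [tr, aeval_X]
      rw [h2, add_mul, smul_eq_C_mul]
    · refine ⟨_, Algebra.subset_adjoin (Or.inr ⟨i, rfl⟩), fun g => ?_⟩
      exact tr_pderiv p i g
  | algebraMap r =>
    refine ⟨algebraMap ℂ _ r, Subalgebra.algebraMap_mem _ _, fun q => ?_⟩
    rw [Module.algebraMap_end_apply, Module.algebraMap_end_apply, map_smul]
  | add R R' _ _ h h' =>
    obtain ⟨S, hS, e⟩ := h
    obtain ⟨S', hS', e'⟩ := h'
    exact ⟨S + S', Subalgebra.add_mem _ hS hS', fun q => by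
      rw [LinearMap.add_apply, map_add, e, e', LinearMap.add_apply]⟩
  | mul R R' _ _ h h' =>
    obtain ⟨S, hS, e⟩ := h
    obtain ⟨S', hS', e'⟩ := h'
    exact ⟨S * S', Subalgebra.mul_mem _ hS hS', fun q => by
      rw [Module.End.mul_apply, e, e', Module.End.mul_apply]⟩

/-- functional equations and translations -/
theorem isB_tr (p : σ → ℂ) (F : MvPolynomial σ ℂ) (b : Polynomial ℂ) (h : IsBFunction F b) :
    IsBFunction (tr p F) b := by
  classical
  obtain ⟨P, hP⟩ := h
  choose Q hQ hQ2 using fun m : ℕ => tr_weyl p (P m).1 (P m).2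
  refine ⟨∑ m ∈ P.support, Finsupp.single m ⟨Q m, hQ m⟩, fun s => ?_⟩
  rw [← Finsupp.sum_finsetSum_index]
  · have h1 := congrArg (tr p) (hP s)
    rw [map_mul, map_pow, Finsupp.sum, map_sum] at h1
    have h2 : tr p (C (b.eval (s : ℂ))) = C (b.eval (s : ℂ)) := by
      rw [tr, algHom_C, algebraMap_eq]
    rw [h2] at h1
    rw [h1]
    refine Finset.sum_congr rfl fun m _ => ?_
    rw [Finsupp.sum_single_index (by
      rw [ZeroMemClass.coe_zero, LinearMap.zero_apply, smul_zero])]
    change _ = ((s : ℂ) ^ m) • Q m (tr p F ^ (s + 1))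
    rw [← map_pow, ← hQ2, map_smul]
  · intro a
    rw [ZeroMemClass.coe_zero, LinearMap.zero_apply, smul_zero]
  · intro a A B
    rw [← smul_add]
    rfl

/-- global functional equations are local ones -/
theorem local_of_global (F : MvPolynomial σ ℂ) (b : Polynomial ℂ) (h : IsBFunction F b) :
    IsLocalBFunction F b := by
  classical
  obtain ⟨P, hP⟩ := h
  refine local_of_locEq F 1 b (locEq_single F 1 b P fun s => ?_) (by
    rw [map_one]
    exact one_ne_zero)
  rw [one_mul]
  exact hP s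

end Pool.Agent.K9h22.IC
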